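import Pool.Agent.helper25.EN.Spec

/-! Row LOG of project EN (helper25), proved by helper42. -/

set_option autoImplicit false

namespace EN

open Finset Real

theorem LOG_fl {m : ℕ} (v : Fin m) (C : Finset (Fin m)) (hv : v ∉ C) (x : Om m) :
    ∀ u ∈ C, fl v x u = x u := by
  intro u hu
  have h : u ≠ v := by
    rintro rfl
    exact hv hu
  unfold fl
  exact Function.update_of_ne h _ _

theorem LOG_one (acp : ACP_stmt) {m : ℕ} (Q : Om m → ℝ) (hQ : Law Q) (v : Fin m)
    (C C' : Finset (Fin m)) (x : Om m) (hC : C ⊆ C') (hv : v ∉ C') (hx : 0 < Q x)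
    (h1 : a Q C v x = 1) : a Q C' v x = 1 := by
  have hvC : v ∉ C := fun h => hv (hC h)
  obtain ⟨A1, A2, A3, A4, A5, A6, A7⟩ := acp m Q hQ C v x
  obtain ⟨-, -, -, h7⟩ := A7 hvC
  obtain ⟨h8, h9⟩ := h7 hx
  rw [h1, sub_self] at h9
  have hw : 0 < w Q C (fl v x) := by
    rw [A1 (fl v x) (LOG_fl v C hvC x)]
    exact lt_of_lt_of_le hx A2
  have h10 : w Q (insert v C) (fl v x) = 0 := by
    unfold a at h9
    rcases div_eq_zero_iff.1 h9 with h | h
    · exact h
    · exact absurd h hw.ne'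
  have h11 : w Q (insert v C') (fl v x) ≤ w Q (insert v C) (fl v x) :=
    (acp m Q hQ (insert v C) v (fl v x)).2.2.2.2.2.1 _ (insert_subset_insert v hC)
  have h12 : w Q (insert v C') (fl v x) = 0 := by
    refine le_antisymm ?_ ?_
    · rw [h10] at h11
      exact h11
    · exact le_trans (hQ.1 (fl v x)) (acp m Q hQ (insert v C') v (fl v x)).2.1
  have h13 := (((acp m Q hQ C' v x).2.2.2.2.2.2 hv).2.2.2 hx).2
  have h14 : a Q C' v (fl v x) = 0 := by
    unfold a
    rw [h12, zero_div]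
  linarith

theorem LOG (acp : ACP_stmt) (cex : CEX_stmt) (inq : INQ_stmt) : LOG_stmt := by
  intro m Q hQ v C C' Gd hG
  have hA : ∀ x ∈ Gd, ∀ y, (∀ u ∈ insert v (C' x), y u = x u) →
      a Q (C' y) v y = a Q (C' x) v x ∧ a Q (C y) v y = a Q (C x) v x := by
    intro x hx y hy
    obtain ⟨h1, h2, h3, h4⟩ := hG x hx
    have hy' : ∀ u ∈ C' x, y u = x u := fun u hu => hy u (mem_insert_of_mem hu)
    have e1 : C' y = C' x := (h4 y hy').1
    have e2 : C y = C x := h3 y (fun u hu => hy' u (h2 hu))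
    rw [e1, e2]
    exact ⟨((acp m Q hQ (C' x) v x).2.2.2.2.2.2 h1).1 y hy,
      ((acp m Q hQ (C x) v x).2.2.2.2.2.2 (fun h => h1 (h2 h))).1 y
        (fun u hu => hy u (insert_subset_insert v h2 hu))⟩
  have hpos : ∀ x ∈ Gd, 0 < Q x → 0 < a Q (C' x) v x ∧ 0 < a Q (C x) v x ∧
      a Q (C' x) v x ≤ 1 ∧ a Q (C x) v x ≤ 1 ∧
      a Q (C' (fl v x)) v (fl v x) = 1 - a Q (C' x) v x ∧
      a Q (C (fl v x)) v (fl v x) = 1 - a Q (C x) v x ∧
      (a Q (C x) v x = 1 → a Q (C' x) v x = 1) := by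
    intro x hx h0
    obtain ⟨h1, h2, h3, h4⟩ := hG x hx
    have h1' : v ∉ C x := fun h => h1 (h2 h)
    have e1 : C' (fl v x) = C' x := (h4 _ (LOG_fl v (C' x) h1 x)).1
    have e2 : C (fl v x) = C x := h3 _ (LOG_fl v (C x) h1' x)
    obtain ⟨-, p2, p3, p4⟩ := (acp m Q hQ (C' x) v x).2.2.2.2.2.2 h1
    obtain ⟨-, q2, q3, q4⟩ := (acp m Q hQ (C x) v x).2.2.2.2.2.2 h1'
    rw [e1, e2]
    exact ⟨(p4 h0).1, (q4 h0).1, p3, q3, (p4 h0).2, (q4 h0).2,
      fun h => LOG_one acp Q hQ v (C x) (C' x) x h2 h1 h0 h⟩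
  have part2 : ∑ x ∈ Gd, Q x * (log (a Q (C' x) v x) - log (a Q (C x) v x)) =
      ∑ x ∈ Gd, Q x * kl (a Q (C' x) v x) (a Q (C x) v x) := by
    have e := cex m Q hQ v C' Gd (fun x => log (a Q (C' x) v x) - log (a Q (C x) v x))
      (fun x hx => ⟨(hG x hx).1, (hG x hx).2.2.2, fun y hy => by
        show log (a Q (C' y) v y) - log (a Q (C y) v y) =
          log (a Q (C' x) v x) - log (a Q (C x) v x)
        rw [(hA x hx y hy).1, (hA x hx y hy).2]⟩)
    refine e.trans (Finset.sum_congr rfl fun x hx => ?_)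
    rcases eq_or_lt_of_le (hQ.1 x) with h0 | h0
    · rw [← h0, zero_mul, zero_mul]
    · obtain ⟨p1, p2, p3, p4, p5, p6, p7⟩ := hpos x hx h0
      show Q x * (a Q (C' x) v x * (log (a Q (C' x) v x) - log (a Q (C x) v x)) +
        (1 - a Q (C' x) v x) * (log (a Q (C' (fl v x)) v (fl v x)) -
          log (a Q (C (fl v x)) v (fl v x)))) = _
      rw [p5, p6]
      unfold kl
      rw [Real.log_div p1.ne' p2.ne']
      congr 2
      by_cases hs : 1 - a Q (C' x) v x = 0
      · rw [hs, zero_mul, zero_mul]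
      · have ht : 1 - a Q (C x) v x ≠ 0 := by
          intro ht
          have := p7 (by linarith)
          exact hs (by linarith)
        rw [Real.log_div hs ht]
  refine ⟨?_, part2, ?_⟩
  · have e := cex m Q hQ v C' Gd (fun x => log (2 * a Q (C' x) v x))
      (fun x hx => ⟨(hG x hx).1, (hG x hx).2.2.2, fun y hy => by
        show log (2 * a Q (C' y) v y) = log (2 * a Q (C' x) v x)
        rw [(hA x hx y hy).1]⟩)
    refine e.trans (Finset.sum_congr rfl fun x hx => ?_)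
    rcases eq_or_lt_of_le (hQ.1 x) with h0 | h0
    · rw [← h0, zero_mul, zero_mul]
    · obtain ⟨p1, p2, p3, p4, p5, p6, p7⟩ := hpos x hx h0
      show Q x * (a Q (C' x) v x * log (2 * a Q (C' x) v x) +
        (1 - a Q (C' x) v x) * log (2 * a Q (C' (fl v x)) v (fl v x))) = _
      rw [p5]
      rfl
  · have hnn : 0 ≤ ∑ x ∈ Gd, Q x * kl (a Q (C' x) v x) (a Q (C x) v x) := by
      refine Finset.sum_nonneg fun x hx => ?_
      rcases eq_or_lt_of_le (hQ.1 x) with h0 | h0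
      · rw [← h0, zero_mul]
      · obtain ⟨p1, p2, p3, p4, p5, p6, p7⟩ := hpos x hx h0
        exact mul_nonneg h0.le (inq _ _ p1.le p3 p2.le p4 (fun h => absurd h p2.ne') p7).1
    rw [← part2] at hnn
    have hsub : ∑ x ∈ Gd, Q x * (log (a Q (C' x) v x) - log (a Q (C x) v x)) =
        ∑ x ∈ Gd, Q x * log (a Q (C' x) v x) - ∑ x ∈ Gd, Q x * log (a Q (C x) v x) := by
      rw [← Finset.sum_sub_distrib]
      exact Finset.sum_congr rfl fun x _ => by ring
    rw [hsub] at hnn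
    linarith

end EN
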