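import Pool.Agent.helper80.EN.Spec5

set_option autoImplicit false

namespace Pool.Agent.helper80.EN

open Subgroup

universe u

theorem QFO (hP : PRD_stmt.{u}) (hT : TRF_stmt.{u}) : QFO_stmt.{u} := by
  intro G V _ _ hfin hv I v M hM hMv
  have hc : ∀ i : I, ∃ g : G, g • v i =
      Quotient.out (Quotient.mk (MulAction.orbitRel G V) (v i)) := by
    intro i
    have h1 : (MulAction.orbitRel G V) (Quotient.out (Quotient.mk (MulAction.orbitRel G V) (v i)))
        (v i) := Quotient.exact (Quotient.out_eq _)
    exact h1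
  choose c hc using hc
  let K : (ω : MulAction.orbitRel.Quotient G V) →
      (j : {i : I // (Quotient.mk (MulAction.orbitRel G V) (v i) :
        MulAction.orbitRel.Quotient G V) = ω}) →
      Subgroup (MulAction.stabilizer G (Quotient.out ω)) :=
    fun ω j => ((M j.1).map (MulAut.conj (c j.1)).toMonoidHom).comap
      (MulAction.stabilizer G (Quotient.out ω)).subtype
  have hKN : ∀ ω j, LocNilp (K ω j) := by
    intro ω j
    refine (hT (MulAction.stabilizer G (Quotient.out ω))).2.2.2.1 G
      (MulAction.stabilizer G (Quotient.out ω)).subtype _ (Subgroup.subtype_injective _) ?_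
    exact (hT G).2.1 G _ (M j.1) (hM j.1)
  have hL : InL ((ω : MulAction.orbitRel.Quotient G V) →
      (j : {i : I // (Quotient.mk (MulAction.orbitRel G V) (v i) :
        MulAction.orbitRel.Quotient G V) = ω}) → K ω j) := by
    have := hfin
    refine hP.2.2 (MulAction.orbitRel.Quotient G V) _ ?_
    intro ω
    exact hv (Quotient.out ω) _ (K ω) (hKN ω)
  have hst : ∀ (ω : MulAction.orbitRel.Quotient G V)
      (j : {i : I // (Quotient.mk (MulAction.orbitRel G V) (v i) :
        MulAction.orbitRel.Quotient G V) = ω}) (m : G), m ∈ M j.1 →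
      c j.1 * m * (c j.1)⁻¹ ∈ MulAction.stabilizer G (Quotient.out ω) := by
    intro ω j m hm
    obtain ⟨i, hi⟩ := j
    subst hi
    rw [MulAction.mem_stabilizer_iff]
    have h2 : m • v i = v i := hMv i hm
    have h3 := hc i
    simp only
    rw [← h3, mul_smul, mul_smul, inv_smul_smul, h2]
  let φ : ((i : I) → M i) →* ((ω : MulAction.orbitRel.Quotient G V) →
      (j : {i : I // (Quotient.mk (MulAction.orbitRel G V) (v i) :
        MulAction.orbitRel.Quotient G V) = ω}) → K ω j) :=
    { toFun := fun x ω j => ⟨⟨c j.1 * (x j.1 : G) * (c j.1)⁻¹, hst ω j _ (x j.1).2⟩,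
        ⟨(x j.1 : G), (x j.1).2, rfl⟩⟩
      map_one' := by
        funext ω j
        refine Subtype.ext (Subtype.ext ?_)
        simp
      map_mul' := by
        intro x y
        funext ω j
        refine Subtype.ext (Subtype.ext ?_)
        simp [mul_assoc] }
  refine InL.sub φ ?_ hL
  intro x y hxy
  funext i
  refine Subtype.ext ?_
  have h1 := congrArg (fun z => ((z : K (Quotient.mk (MulAction.orbitRel G V) (v i)) ⟨i, rfl⟩) :
    MulAction.stabilizer G (Quotient.out (Quotient.mk (MulAction.orbitRel G V) (v i)))).1)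
    (congrFun (congrFun hxy (Quotient.mk (MulAction.orbitRel G V) (v i))) ⟨i, rfl⟩)
  have h2 : c i * (x i : G) * (c i)⁻¹ = c i * (y i : G) * (c i)⁻¹ := h1
  exact mul_left_cancel (mul_right_cancel h2)

end Pool.Agent.helper80.EN
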