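import Pool.Agent.helper80.EN.Spec2

/-!
# MP_43ab4e_al: row et:THB (axis of a hyperbolic isometry)
-/

set_option autoImplicit false

namespace Pool.Agent.helper80.EN

open Subgroup

universe u

theorem THB (hTG : TG_stmt.{u}) (hLNG : LNG_stmt.{u}) : THB_stmt.{u} := by
  intro G V _ _ _ d hA g hg
  have hT := hA.tm
  obtain ⟨_, _, _, _, hord, _, _, _⟩ := hTG V d hT
  -- a vertex with minimal displacement
  obtain ⟨v, hv⟩ : ∃ v : V, ∀ x : V, d v (g • v) ≤ d x (g • x) := by
    have hne : (Set.range fun x : V => d x (g • x)).Nonempty := Set.range_nonempty _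
    obtain ⟨v, hv⟩ := Nat.sInf_mem hne
    refine ⟨v, fun x => ?_⟩
    simp only at hv
    rw [hv]
    exact Nat.sInf_le ⟨x, rfl⟩
  obtain ⟨t, ht⟩ : ∃ t : ℕ, t = d v (g • v) := ⟨_, rfl⟩
  have htpos : 1 ≤ t := by
    rcases Nat.eq_zero_or_pos t with h0 | h0
    · exfalso
      apply hg
      rw [ht] at h0
      exact ⟨v, ((hT.eq _ _).1 h0).symm⟩
    · exact h0
  have hself : ∀ x : V, d x x = 0 := fun x => (hT.eq x x).2 rfl
  -- points of the segment
  have hex : ∀ i : ℕ, ∃ z : V, i ≤ t → d v z = i ∧ d z (g • v) = t - i := by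
    intro i
    by_cases hi : i ≤ t
    · obtain ⟨z, hz⟩ := hT.geo v (g • v) i (by rw [← ht]; exact hi)
      exact ⟨z, fun _ => by rw [ht]; exact hz⟩
    · exact ⟨v, fun h => absurd h hi⟩
  choose w hw using hex
  have hw0 : w 0 = v := by
    have h1 := (hw 0 (Nat.zero_le _)).1
    exact ((hT.eq _ _).1 h1).symm
  have hwt : w t = g • v := by
    have h1 := (hw t le_rfl).2
    rw [Nat.sub_self] at h1
    exact (hT.eq _ _).1 h1
  have hwd : ∀ i j : ℕ, i ≤ j → j ≤ t → d (w i) (w j) = j - i := by
    intro i j hij hj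
    have h1 := hw i (hij.trans hj)
    have h2 := hw j hj
    have h3 := (hord v (g • v) (w i) (w j) (by unfold Bt; omega) (by unfold Bt; omega) (by omega)).1
    unfold Bt at h3
    omega
  let f : ℤ → V := fun n => (g ^ (n / (t : ℤ))) • w ((n % (t : ℤ)).toNat)
  have ht0 : (t : ℤ) ≠ 0 := by omega
  have hfk : ∀ k n : ℤ, f (n + k * t) = (g ^ k) • f n := by
    intro k n
    simp only [f]
    rw [Int.add_mul_ediv_right n k ht0, Int.add_mul_emod_self_right, smul_smul, ← zpow_add,
      add_comm k]
  have hfr : ∀ r : ℕ, r ≤ t → f r = w r := by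
    intro r hr
    rcases Nat.lt_or_ge r t with h1 | h1
    · simp only [f]
      rw [Int.ediv_eq_zero_of_lt (by omega) (by omega), Int.emod_eq_of_lt (by omega) (by omega)]
      simp
    · have h2 : r = t := by omega
      subst h2
      have h3 := hfk 1 0
      simp only [one_mul, zero_add, zpow_one] at h3
      rw [h3, hwt]
      simp only [f]
      simp [hw0]
  have hdg : ∀ (q : ℤ) (x y : V), d ((g ^ q) • x) ((g ^ q) • y) = d x y := fun q x y => hA.iso _ _ _
  have hred : ∀ n j : ℤ, ∃ r : ℕ, r < t ∧ d (f n) (f (n + j)) = d (f r) (f (r + j)) := by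
    intro n j
    have h1 : 0 ≤ n % (t : ℤ) := Int.emod_nonneg n ht0
    have h2 : n % (t : ℤ) < t := Int.emod_lt_of_pos n (by omega)
    have h3 : n = n % (t : ℤ) + (n / (t : ℤ)) * t := by
      have := Int.emod_add_mul_ediv n (t : ℤ)
      rw [mul_comm] at this
      exact this.symm
    obtain ⟨r, hr⟩ := Int.eq_ofNat_of_zero_le h1
    refine ⟨r, by omega, ?_⟩
    have h4 : f n = (g ^ (n / (t : ℤ))) • f r := by
      have h5 := hfk (n / (t : ℤ)) r
      rw [← h5]
      congr 1
      rw [← hr]
      exact h3
    have h6 : f (n + j) = (g ^ (n / (t : ℤ))) • f (r + j) := by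
      have h5 := hfk (n / (t : ℤ)) (r + j)
      rw [← h5]
      congr 1
      have h7 : n + j = (n % (t : ℤ) + (n / (t : ℤ)) * t) + j := by rw [← h3]
      rw [h7, hr]
      ring
    rw [h4, h6, hdg]
  refine ⟨f, t, by omega, ?_, ?_⟩
  · apply hLNG V d hT f
    · intro n
      obtain ⟨r, hr, h1⟩ := hred n 1
      rw [h1, hfr r hr.le]
      have h2 : f ((r : ℤ) + 1) = w (r + 1) := by
        have := hfr (r + 1) (by omega)
        rw [← this]
        congr 1
      rw [h2, hwd r (r + 1) (by omega) (by omega)]
      omega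
    · intro n
      obtain ⟨r, hr, h1⟩ := hred n 2
      rw [h1, hfr r hr.le]
      rcases Nat.lt_or_ge (r + 1) t with h2 | h2
      · have h3 : f ((r : ℤ) + 2) = w (r + 2) := by
          have := hfr (r + 2) (by omega)
          rw [← this]
          congr 1
        rw [h3, hwd r (r + 2) (by omega) (by omega)]
        omega
      · have h3 : f ((r : ℤ) + 2) = g • w 1 := by
          have h4 := hfk 1 1
          rw [zpow_one] at h4
          have h5 := hfr 1 htpos
          rw [Nat.cast_one] at h5
          rw [← h5, ← h4]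
          congr 1
          omega
        rw [h3]
        have h5 : d (w r) (w t) = 1 := by
          rw [hwd r t hr.le le_rfl]
          omega
        have h6 : d (w t) (g • w 1) = 1 := by
          rw [hwt, hA.iso, ← hw0, hwd 0 1 (by omega) htpos]
        have h7 := hT.tri (w r) (w t) (g • w 1)
        have h8 := hT.par (w r) (w t) (g • w 1)
        rw [h5, h6] at h7 h8
        have h9 : d (w r) (g • w 1) ≠ 0 := by
          intro h0
          have h10 : w r = g • w 1 := (hT.eq _ _).1 h0
          rcases Nat.lt_or_ge 1 t with h11 | h11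
          · have h12 := hv (w 1)
            rw [← h10, hwd 1 r (by omega) hr.le] at h12
            omega
          · have h13 : t = 1 := by omega
            have h14 : r = 0 := by omega
            rw [h14, hw0] at h10
            have h15 : w 1 = g • v := by rw [← h13]; exact hwt
            rw [h15] at h10
            exact hA.inv g v (g • v) (by omega) rfl h10.symm
        obtain ⟨k, hk⟩ := h8
        omega
  · intro n
    have h1 := hfk 1 n
    rw [one_mul, zpow_one] at h1
    exact h1.symm

end Pool.Agent.helper80.EN
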